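import Mathlib

namespace Pool.Agent.Results.MP_f97503_an.UnitBallSuffices

open Filter Topology Set

/-! ## A continuous choice of separating functions forces metrizability -/

section abstractPart

variable {K : Type*} [TopologicalSpace K] [CompactSpace K] [T2Space K]

/-- For a finite set `F`, the values of `P` at `x` with parameters in `F`. -/
def typ (P : K → K → K → ℝ) (F : Finset K) (x : K) : F → F → ℝ × ℝ :=
  fun d e => (P d e x, P x d e)

omit [TopologicalSpace K] [CompactSpace K] [T2Space K] in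
theorem exists_skolem (P : K → K → K → ℝ) (F : Finset K) :
    ∃ S : Set K, S.Countable ∧ ∀ p : K, p ∉ F → ∀ ε : ℝ, 0 < ε →
      ∃ x ∈ S, x ∉ F ∧ ∀ d ∈ F, ∀ e ∈ F, |P d e x - P d e p| < ε ∧ |P x d e - P p d e| < ε := by
  classical
  obtain ⟨t, ht, htc, hst⟩ := (TopologicalSpace.IsSeparable.of_separableSpace
    (typ P F '' {x | x ∉ F})).exists_countable_dense_subset
  have hch : ∀ b : t, ∃ x, x ∉ F ∧ typ P F x = b := by
    intro b
    obtain ⟨x, hx, hxb⟩ := ht b.2
    exact ⟨x, hx, hxb⟩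
  choose g hg hg' using hch
  have := htc.to_subtype
  refine ⟨range g, countable_range g, fun p hp ε hε => ?_⟩
  have h1 : typ P F p ∈ closure t := hst ⟨p, hp, rfl⟩
  obtain ⟨b, hb, hdist⟩ := Metric.mem_closure_iff.1 h1 ε hε
  refine ⟨g ⟨b, hb⟩, mem_range_self _, hg _, fun d hd e he => ?_⟩
  have h2 : typ P F (g ⟨b, hb⟩) = b := hg' ⟨b, hb⟩
  rw [← h2, dist_comm] at hdist
  have h3 := (dist_pi_lt_iff hε).1 hdist ⟨d, hd⟩
  have h4 := (dist_pi_lt_iff hε).1 h3 ⟨e, he⟩
  rw [Prod.dist_eq, max_lt_iff] at h4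
  exact ⟨h4.1, h4.2⟩

theorem exists_closed (P : K → K → K → ℝ) :
    ∃ D : Set K, D.Countable ∧ ∀ F : Finset K, (F : Set K) ⊆ D → ∀ p : K, p ∉ F →
      ∀ ε : ℝ, 0 < ε → ∃ x ∈ D, x ∉ F ∧
        ∀ d ∈ F, ∀ e ∈ F, |P d e x - P d e p| < ε ∧ |P x d e - P p d e| < ε := by
  classical
  choose S hSc hS using exists_skolem P
  obtain ⟨D, hD0, hDs⟩ : ∃ D : ℕ → Set K, D 0 = ∅ ∧
      ∀ n, D (n + 1) = D n ∪ ⋃ G : Finset (D n), S (G.map (Function.Embedding.subtype _)) :=
    ⟨fun n => Nat.rec ∅ (fun _ A => A ∪ ⋃ G : Finset A, S (G.map (Function.Embedding.subtype _)))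
      n, rfl, fun _ => rfl⟩
  have hDc : ∀ n, (D n).Countable := by
    intro n
    induction n with
    | zero => rw [hD0]; exact countable_empty
    | succ n ih =>
      rw [hDs]
      have := ih.to_subtype
      exact ih.union (countable_iUnion fun G => hSc _)
  have hmono : Monotone D := by
    apply monotone_nat_of_le_succ
    intro n
    rw [hDs]
    exact subset_union_left
  refine ⟨⋃ n, D n, countable_iUnion hDc, fun F hF p hp ε hε => ?_⟩
  have hn : ∃ n, (F : Set K) ⊆ D n := by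
    clear hp
    induction F using Finset.induction_on with
    | empty => exact ⟨0, by simp⟩
    | insert a G ha ih =>
      have h1 : (G : Set K) ⊆ ⋃ n, D n := fun x hx => hF (by
        rw [Finset.coe_insert]; exact mem_insert_of_mem _ hx)
      obtain ⟨n, hn⟩ := ih h1
      have h2 : a ∈ ⋃ n, D n := hF (by rw [Finset.coe_insert]; exact mem_insert _ _)
      obtain ⟨m, hm⟩ := mem_iUnion.1 h2
      refine ⟨max n m, ?_⟩
      rw [Finset.coe_insert, insert_subset_iff]
      exact ⟨hmono (le_max_right _ _) hm, hn.trans (hmono (le_max_left _ _))⟩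
  obtain ⟨n, hn⟩ := hn
  obtain ⟨x, hx, hxF, hx'⟩ := hS F p hp ε hε
  refine ⟨x, mem_iUnion.2 ⟨n + 1, ?_⟩, hxF, hx'⟩
  rw [hDs]
  refine Or.inr (mem_iUnion.2 ⟨F.subtype (· ∈ D n), ?_⟩)
  have : (F.subtype (· ∈ D n)).map (Function.Embedding.subtype _) = F := by
    rw [Finset.subtype_map_of_mem]
    intro y hy
    exact hn hy
  rw [this]
  exact hx

omit [CompactSpace K] in
theorem closure_diff {D : Set K} {c y : K} (hy : y ∈ closure D) (hyc : y ≠ c) :
    y ∈ closure (D \ {c}) := by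
  have h1 : D ⊆ (D \ {c}) ∪ {c} := by
    intro z hz
    by_cases h : z = c
    · exact Or.inr h
    · exact Or.inl ⟨hz, h⟩
  have h2 := closure_mono h1 hy
  rw [closure_union, closure_singleton] at h2
  rcases h2 with h | h
  · exact h
  · exact absurd h hyc

theorem eq_zero_of_closure {X : Type*} [TopologicalSpace X] {g : X → ℝ} {a : X} {S : Set X}
    (hg : ContinuousAt g a) (ha : a ∈ closure S) (h : ∀ s ∈ S, g s = 0) : g a = 0 := by
  have h1 := hg.continuousWithinAt.mem_closure (t := {0}) ha (fun s hs => h s hs)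
  simpa using h1

theorem metrizable_of_separation (P : K → K → K → ℝ)
    (hP : ∀ x y z, x ≠ y → ContinuousAt (fun t : K × K × K => P t.1 t.2.1 t.2.2) (x, y, z))
    (h0 : ∀ x y, x ≠ y → P x y x = 0) (h1 : ∀ x y, x ≠ y → P x y y = 1) :
    TopologicalSpace.MetrizableSpace K := by
  classical
  obtain ⟨D, hDc, hD⟩ := exists_closed P
  -- one-variable continuity
  have hc3 : ∀ x y z, x ≠ y → ContinuousAt (fun t => P x y t) z := fun x y z hxy =>
    (hP x y z hxy).comp (f := fun t : K => (x, y, t)) (by fun_prop)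
  have hc1 : ∀ x y z, x ≠ y → ContinuousAt (fun t => P t y z) x := fun x y z hxy =>
    (hP x y z hxy).comp (f := fun t : K => (t, y, z)) (by fun_prop)
  have hc23 : ∀ x y z, x ≠ y → ContinuousAt (fun t : K × K => P x t.1 t.2) (y, z) :=
    fun x y z hxy => ContinuousAt.comp (x := (y, z)) (f := fun t : K × K => (x, t.1, t.2))
      (hP x y z hxy) (by fun_prop)
  have hc2 : ∀ x y z, x ≠ y → ContinuousAt (fun t => P x t z) y := fun x y z hxy =>
    (hP x y z hxy).comp (f := fun t : K => (x, t, z)) (by fun_prop)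
  have hdense : ∀ p, p ∈ closure D := by
    by_contra hcon
    push Not at hcon
    obtain ⟨p, hp⟩ := hcon
    have hpD : p ∉ D := fun h => hp (subset_closure h)
    -- the type of p over D
    obtain ⟨A, hA⟩ : ∃ A : {F : Finset K // (F : Set K) ⊆ D} × ℕ → Set K, A = fun i =>
      {x | x ∈ D ∧ x ∉ i.1.1 ∧ ∀ d ∈ i.1.1, ∀ e ∈ i.1.1,
        |P d e x - P d e p| < 1 / ((i.2 : ℝ) + 1) ∧ |P x d e - P p d e| < 1 / ((i.2 : ℝ) + 1)} :=
      ⟨_, rfl⟩
    have hAne : ∀ i, (A i).Nonempty := by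
      intro i
      obtain ⟨x, hx1, hx2, hx3⟩ := hD i.1.1 i.1.2 p
        (fun h => hpD (i.1.2 h)) (1 / ((i.2 : ℝ) + 1)) (by positivity)
      rw [hA]
      exact ⟨x, hx1, hx2, hx3⟩
    have : Nonempty ({F : Finset K // (F : Set K) ⊆ D} × ℕ) := ⟨⟨∅, by simp⟩, 0⟩
    have hdir : Directed (· ≥ ·) fun i => 𝓟 (A i) := by
      rintro ⟨⟨F, hF⟩, n⟩ ⟨⟨G, hG⟩, m⟩
      refine ⟨⟨⟨F ∪ G, by rw [Finset.coe_union]; exact union_subset hF hG⟩, max n m⟩, ?_, ?_⟩
      · change 𝓟 _ ≤ 𝓟 _
        rw [principal_mono, hA]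
        rintro x ⟨hx1, hx2, hx3⟩
        refine ⟨hx1, fun h => hx2 (Finset.mem_union_left _ h), fun d hd e he => ?_⟩
        obtain ⟨h2, h3⟩ := hx3 d (Finset.mem_union_left _ hd) e (Finset.mem_union_left _ he)
        have h4 : 1 / (((max n m : ℕ) : ℝ) + 1) ≤ 1 / ((n : ℝ) + 1) := by
          apply one_div_le_one_div_of_le (by positivity)
          have : (n : ℝ) ≤ ((max n m : ℕ) : ℝ) := by exact_mod_cast le_max_left n m
          linarith
        exact ⟨h2.trans_le h4, h3.trans_le h4⟩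
      · change 𝓟 _ ≤ 𝓟 _
        rw [principal_mono, hA]
        rintro x ⟨hx1, hx2, hx3⟩
        refine ⟨hx1, fun h => hx2 (Finset.mem_union_right _ h), fun d hd e he => ?_⟩
        obtain ⟨h2, h3⟩ := hx3 d (Finset.mem_union_right _ hd) e (Finset.mem_union_right _ he)
        have h4 : 1 / (((max n m : ℕ) : ℝ) + 1) ≤ 1 / ((m : ℝ) + 1) := by
          apply one_div_le_one_div_of_le (by positivity)
          have : (m : ℝ) ≤ ((max n m : ℕ) : ℝ) := by exact_mod_cast le_max_right n m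
          linarith
        exact ⟨h2.trans_le h4, h3.trans_le h4⟩
    have hne : NeBot (⨅ i, 𝓟 (A i)) :=
      iInf_neBot_of_directed' hdir fun i => (hAne i).principal_neBot
    obtain ⟨U, hU⟩ : ∃ U : Ultrafilter K, U = Ultrafilter.of (⨅ i, 𝓟 (A i)) := ⟨_, rfl⟩
    have hUA : ∀ i, A i ∈ U := by
      intro i
      have h2 : (U : Filter K) ≤ ⨅ i, 𝓟 (A i) := by rw [hU]; exact Ultrafilter.of_le _
      exact (h2.trans (iInf_le _ i)) (mem_principal_self _)
    obtain ⟨c, hc⟩ : ∃ c, (U : Filter K) ≤ 𝓝 c := by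
      obtain ⟨c, -, hc⟩ := isCompact_univ.ultrafilter_le_nhds U (by simp)
      exact ⟨c, hc⟩
    have hDU : D ∈ U := by
      refine mem_of_superset (hUA ⟨⟨∅, by simp⟩, 0⟩) ?_
      rw [hA]
      exact fun x hx => hx.1
    have hcC : c ∈ closure D := by
      rw [mem_closure_iff_ultrafilter]
      exact ⟨U, hDU, hc⟩
    have hpc : p ≠ c := fun h => hp (h ▸ hcC)
    -- limits of the type along U
    have hlim : ∀ d ∈ D, ∀ e ∈ D, Tendsto (fun x => P d e x) U (𝓝 (P d e p)) ∧
        Tendsto (fun x => P x d e) U (𝓝 (P p d e)) := by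
      intro d hd e he
      have hF : (({d, e} : Finset K) : Set K) ⊆ D := by
        intro x hx
        simp only [Finset.coe_insert, Finset.coe_singleton, mem_insert_iff,
          mem_singleton_iff] at hx
        rcases hx with rfl | rfl
        · exact hd
        · exact he
      have hlim0 : Tendsto (fun n : ℕ => 1 / ((n : ℝ) + 1)) atTop (𝓝 0) :=
        tendsto_one_div_add_atTop_nhds_zero_nat
      constructor
      · rw [Metric.tendsto_nhds]
        intro ε hε
        obtain ⟨n, hn⟩ := (hlim0.eventually (gt_mem_nhds hε)).exists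
        refine mem_of_superset (hUA ⟨⟨{d, e}, hF⟩, n⟩) ?_
        rw [hA]
        rintro x ⟨-, -, hx⟩
        have := (hx d (by simp) e (by simp)).1
        change dist (P d e x) (P d e p) < ε
        rw [Real.dist_eq]
        exact this.trans hn
      · rw [Metric.tendsto_nhds]
        intro ε hε
        obtain ⟨n, hn⟩ := (hlim0.eventually (gt_mem_nhds hε)).exists
        refine mem_of_superset (hUA ⟨⟨{d, e}, hF⟩, n⟩) ?_
        rw [hA]
        rintro x ⟨-, -, hx⟩
        have := (hx d (by simp) e (by simp)).2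
        change dist (P x d e) (P p d e) < ε
        rw [Real.dist_eq]
        exact this.trans hn
    have hf3 : ∀ d ∈ D, ∀ e ∈ D, d ≠ e → P d e c = P d e p := fun d hd e he hde =>
      tendsto_nhds_unique ((hc3 d e c hde).tendsto.mono_left hc) (hlim d hd e he).1
    have hf1 : ∀ d ∈ D, ∀ e ∈ D, d ≠ c → P c d e = P p d e := fun d hd e he hdc =>
      tendsto_nhds_unique ((hc1 c d e hdc.symm).tendsto.mono_left hc) (hlim d hd e he).2
    -- the same on the closure
    have hfC : ∀ y ∈ closure D, ∀ z ∈ closure D, y ≠ c → P c y z = P p y z := by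
      intro y hy z hz hyc
      have hpy : p ≠ y := fun h => hp (h ▸ hy)
      have h2 : ContinuousAt (fun t : K × K => P c t.1 t.2 - P p t.1 t.2) (y, z) :=
        (hc23 c y z hyc.symm).sub (hc23 p y z hpy)
      have h3 : (y, z) ∈ closure ((D \ {c}) ×ˢ D) := by
        rw [closure_prod_eq]
        exact ⟨closure_diff hy hyc, hz⟩
      have h4 := eq_zero_of_closure h2 h3 (by
        rintro ⟨d, e⟩ ⟨⟨hd, hdc⟩, he⟩
        exact sub_eq_zero.2 (hf1 d hd e he hdc))
      exact sub_eq_zero.1 h4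
    -- c is isolated in the closure of D
    have hiso : c ∉ closure (closure D \ {c}) := by
      intro h
      have h2 := eq_zero_of_closure (hc2 p c c hpc) h (by
        rintro y ⟨hy, hyc⟩
        rw [← hfC y hy c hcC hyc]
        exact h0 c y (fun h => hyc h.symm))
      rw [h1 p c hpc] at h2
      exact one_ne_zero h2
    have hcD : c ∈ D := by
      by_contra h
      apply hiso
      have : D ⊆ closure D \ {c} := fun x hx => ⟨subset_closure hx, fun h2 => h (by
        rw [mem_singleton_iff] at h2; rwa [← h2])⟩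
      exact closure_mono this hcC
    have hclosed : IsClosed (closure D \ {c}) := by
      rw [← closure_subset_iff_isClosed]
      intro x hx
      refine ⟨?_, ?_⟩
      · have := closure_mono (sdiff_subset (s := closure D) (t := {c})) hx
        rwa [closure_closure] at this
      · rintro rfl
        exact hiso hx
    have hcomp : IsCompact (closure D \ {c}) := hclosed.isCompact
    have hopen : ∀ e : (D \ {c} : Set K), IsOpen {z | (1 : ℝ) / 2 < P c e z} := by
      intro e
      have hce : c ≠ (e : K) := fun h => e.2.2 h.symm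
      have : Continuous fun z => P c e z := continuous_iff_continuousAt.2 fun z => hc3 c e z hce
      exact isOpen_lt continuous_const this
    have hcov : closure D \ {c} ⊆ ⋃ e : (D \ {c} : Set K), {z | (1 : ℝ) / 2 < P c e z} := by
      rintro y ⟨hy, hyc⟩
      have hcy : c ≠ y := fun h => hyc h.symm
      have h2 : ∀ᶠ e in 𝓝 y, (1 : ℝ) / 2 < P c e y := by
        apply (hc2 c y y hcy).eventually (lt_mem_nhds _)
        change (1 : ℝ) / 2 < P c y y
        rw [h1 c y hcy]
        norm_num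
      obtain ⟨e, he, he'⟩ := mem_closure_iff_nhds.1 (closure_diff hy hyc) _ h2
      exact mem_iUnion.2 ⟨⟨e, he'⟩, he⟩
    obtain ⟨E, hE⟩ := hcomp.elim_finite_subcover _ hopen hcov
    -- apply the closure property
    obtain ⟨F, hF⟩ : ∃ F : Finset K, F = insert c (E.map (Function.Embedding.subtype _)) :=
      ⟨_, rfl⟩
    have hFD : (F : Set K) ⊆ D := by
      intro x hx
      rw [hF, Finset.coe_insert] at hx
      rcases hx with rfl | hx
      · exact hcD
      · rw [Finset.mem_coe, Finset.mem_map] at hx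
        obtain ⟨e, -, rfl⟩ := hx
        exact e.2.1
    obtain ⟨d, hdD, hdF, hd⟩ := hD F hFD p (fun h => hpD (hFD h)) (1 / 2) (by norm_num)
    have hcF : c ∈ F := by rw [hF]; exact Finset.mem_insert_self _ _
    have hdc : d ≠ c := fun h => hdF (h ▸ hcF)
    obtain ⟨e, heE, hed⟩ : ∃ e ∈ E, (1 : ℝ) / 2 < P c e d := by
      have := hE ⟨subset_closure hdD, hdc⟩
      simpa using this
    have heF : (e : K) ∈ F := by
      rw [hF]
      exact Finset.mem_insert_of_mem (Finset.mem_map.2 ⟨e, heE, rfl⟩)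
    have hce : c ≠ (e : K) := fun h => e.2.2 h.symm
    have h2 := (hd c hcF e heF).1
    rw [← hf3 c hcD e (hFD heF) hce, h0 c e hce, sub_zero] at h2
    have h3 := (abs_lt.1 h2).2
    linarith
  -- a countable family separates the points
  obtain ⟨Φ, hΦ⟩ : ∃ Φ : K → (D × D → ℝ), Φ = fun z i =>
    if (i.1 : K) = i.2 then 0 else P i.1 i.2 z := ⟨_, rfl⟩
  have hΦc : Continuous Φ := by
    rw [hΦ]
    apply continuous_pi
    intro i
    by_cases h : (i.1 : K) = i.2
    · simp only [h, if_true]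
      exact continuous_const
    · simp only [h, if_false]
      exact continuous_iff_continuousAt.2 fun z => hc3 _ _ z h
  have hΦi : Function.Injective Φ := by
    intro x y hxy
    by_contra hne
    have hg : ContinuousAt (fun t : K × K => P t.1 t.2 y - P t.1 t.2 x) (x, y) := by
      refine ContinuousAt.sub ?_ ?_
      · exact ContinuousAt.comp (x := (x, y)) (f := fun t : K × K => (t.1, t.2, y))
          (hP x y y hne) (by fun_prop)
      · exact ContinuousAt.comp (x := (x, y)) (f := fun t : K × K => (t.1, t.2, x))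
          (hP x y x hne) (by fun_prop)
    have hev : ∀ᶠ t in 𝓝 (x, y), (0 : ℝ) < P t.1 t.2 y - P t.1 t.2 x ∧ t.1 ≠ t.2 := by
      refine Eventually.and ?_ ?_
      · apply hg.eventually (lt_mem_nhds _)
        change (0 : ℝ) < P x y y - P x y x
        rw [h0 x y hne, h1 x y hne]
        norm_num
      · exact (isOpen_ne_fun continuous_fst continuous_snd).mem_nhds hne
    have hcl : (x, y) ∈ closure (D ×ˢ D) := by
      rw [closure_prod_eq]
      exact ⟨hdense x, hdense y⟩
    obtain ⟨⟨d, e⟩, ⟨h2, h3⟩, hd, he⟩ := mem_closure_iff_nhds.1 hcl _ hev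
    have h4 := congrFun hxy (⟨d, hd⟩, ⟨e, he⟩)
    rw [hΦ] at h4
    have h5 : d ≠ e := h3
    simp only [h5, if_false] at h4
    have h6 : (0 : ℝ) < P d e y - P d e x := h2
    rw [h4] at h6
    linarith
  have := hDc.to_subtype
  exact (hΦc.isClosedEmbedding hΦi).isEmbedding.metrizableSpace

end abstractPart


/-! ## Compensation functions -/

section defs

variable {K : Type*} [TopologicalSpace K] [CompactSpace K]

/-- The positive part `μ⁺` of `μ ∈ C(K)* = M(K)`, evaluated at `f ≥ 0`: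
`μ⁺(f) = sup {μ(g) : 0 ≤ g ≤ f}`. -/
noncomputable def posEval (μ : WeakDual ℝ C(K, ℝ)) (f : C(K, ℝ)) : ℝ :=
  sSup {r | ∃ g : C(K, ℝ), 0 ≤ g ∧ g ≤ f ∧ r = μ g}

/-- `ν` is a compensation of `μ`. -/
def IsCompensation (μ ν : WeakDual ℝ C(K, ℝ)) : Prop :=
  (0 < μ 1 ∧ (∀ f : C(K, ℝ), 0 ≤ f → 0 ≤ ν f ∧ ν f ≤ posEval μ f) ∧ ν 1 = μ 1) ∨
  (μ 1 ≤ 0 ∧ ν = 0)

/-- `K` admits an `M`-compensation function. -/
def HasCompensation (M : Set (WeakDual ℝ C(K, ℝ))) : Prop :=
  ∃ ξ : WeakDual ℝ C(K, ℝ) → WeakDual ℝ C(K, ℝ),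
    ContinuousOn ξ M ∧ ∀ μ ∈ M, IsCompensation μ (ξ μ)

variable (K) in
/-- The closed unit ball of `C(K)* = M(K)`. -/
def unitBall : Set (WeakDual ℝ C(K, ℝ)) := {μ | ∀ f : C(K, ℝ), |μ f| ≤ ‖f‖}

theorem abs_apply_le (μ : WeakDual ℝ C(K, ℝ)) : ∃ C : ℝ, 0 ≤ C ∧ ∀ f, |μ f| ≤ C * ‖f‖ :=
  ⟨‖WeakDual.toStrongDual μ‖, ContinuousLinearMap.opNorm_nonneg _, fun f => by
    have := (WeakDual.toStrongDual μ).le_opNorm f
    rwa [Real.norm_eq_abs] at this⟩

theorem posEval_bdd (μ : WeakDual ℝ C(K, ℝ)) (f : C(K, ℝ)) :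
    BddAbove {r | ∃ g : C(K, ℝ), 0 ≤ g ∧ g ≤ f ∧ r = μ g} := by
  obtain ⟨C, hC, h⟩ := abs_apply_le μ
  refine ⟨C * ‖f‖, ?_⟩
  rintro _ ⟨g, hg0, hgf, rfl⟩
  refine (le_abs_self _).trans ((h g).trans (mul_le_mul_of_nonneg_left ?_ hC))
  rw [ContinuousMap.norm_le _ (norm_nonneg f)]
  intro x
  have h1 : (0 : ℝ) ≤ g x := hg0 x
  have h2 : g x ≤ f x := hgf x
  rw [Real.norm_eq_abs, abs_of_nonneg h1]
  exact h2.trans ((le_abs_self _).trans (f.norm_coe_le_norm x))

theorem le_posEval {μ : WeakDual ℝ C(K, ℝ)} {f g : C(K, ℝ)} (h0 : 0 ≤ g) (h : g ≤ f) :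
    μ g ≤ posEval μ f := le_csSup (posEval_bdd μ f) ⟨g, h0, h, rfl⟩

theorem posEval_le {μ : WeakDual ℝ C(K, ℝ)} {f : C(K, ℝ)} (hf : 0 ≤ f) {b : ℝ}
    (h : ∀ g : C(K, ℝ), 0 ≤ g → g ≤ f → μ g ≤ b) : posEval μ f ≤ b := by
  apply csSup_le
  · exact ⟨μ 0, 0, le_rfl, hf, rfl⟩
  · rintro _ ⟨g, hg0, hg, rfl⟩
    exact h g hg0 hg

theorem posEval_nonneg {μ : WeakDual ℝ C(K, ℝ)} {f : C(K, ℝ)} (hf : 0 ≤ f) :
    0 ≤ posEval μ f := by
  have := le_posEval (μ := μ) le_rfl hf
  rwa [map_zero] at this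

theorem posEval_add {μ : WeakDual ℝ C(K, ℝ)} {f g : C(K, ℝ)} (hf : 0 ≤ f) (hg : 0 ≤ g) :
    posEval μ f + posEval μ g ≤ posEval μ (f + g) := by
  have h1 : posEval μ f ≤ posEval μ (f + g) - posEval μ g := by
    apply posEval_le hf
    intro u hu0 hu
    have h2 : posEval μ g ≤ posEval μ (f + g) - μ u := by
      apply posEval_le hg
      intro v hv0 hv
      have h3 := le_posEval (μ := μ) (add_nonneg hu0 hv0) (add_le_add hu hv)
      rw [map_add] at h3
      linarith
    linarith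
  linarith

theorem posEval_sum {ι : Type*} {μ : WeakDual ℝ C(K, ℝ)} (s : Finset ι) (f : ι → C(K, ℝ))
    (hf : ∀ i, 0 ≤ f i) : ∑ i ∈ s, posEval μ (f i) ≤ posEval μ (∑ i ∈ s, f i) := by
  classical
  induction s using Finset.induction_on with
  | empty => simpa using posEval_nonneg (μ := μ) (f := 0) le_rfl
  | insert a s ha ih =>
    rw [Finset.sum_insert ha, Finset.sum_insert ha]
    exact (add_le_add le_rfl ih).trans (posEval_add (hf a) (Finset.sum_nonneg fun i _ => hf i))

theorem posEval_add_const {μ : WeakDual ℝ C(K, ℝ)} {C : ℝ} (hC : 0 ≤ C)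
    (h : ∀ f, |μ f| ≤ C * ‖f‖) {f : C(K, ℝ)} (hf : 0 ≤ f) {ε : ℝ} (hε : 0 ≤ ε) :
    posEval μ (f + ContinuousMap.const K ε) ≤ posEval μ f + C * ε := by
  apply posEval_le
  · intro x
    have : (0 : ℝ) ≤ f x := hf x
    change (0 : ℝ) ≤ f x + ε
    linarith
  intro g hg0 hg
  have h1 : μ g = μ (g ⊓ f) + μ (g - g ⊓ f) := by rw [← map_add]; congr 1; abel
  have h2 : μ (g ⊓ f) ≤ posEval μ f := le_posEval (le_inf hg0 hf) inf_le_right
  have h3 : μ (g - g ⊓ f) ≤ C * ε := by
    refine (le_abs_self _).trans ((h _).trans (mul_le_mul_of_nonneg_left ?_ hC))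
    rw [ContinuousMap.norm_le _ hε]
    intro x
    change ‖g x - (g x ⊓ f x)‖ ≤ ε
    have h4 : g x ≤ f x + ε := hg x
    rw [Real.norm_eq_abs, abs_le]
    rcases le_total (g x) (f x) with h5 | h5
    · rw [inf_eq_left.2 h5]; constructor <;> linarith
    · rw [inf_eq_right.2 h5]; constructor <;> linarith
  linarith

end defs

section ball

variable {K : Type*} [TopologicalSpace K] [CompactSpace K]

/-- The functional `(δ_x + δ_y - δ_z) / 3`. -/
noncomputable def tri (x y z : K) : WeakDual ℝ C(K, ℝ) :=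
  StrongDual.toWeakDual ((1 / 3 : ℝ) • (ContinuousMap.evalCLM ℝ x + ContinuousMap.evalCLM ℝ y
    - ContinuousMap.evalCLM ℝ z))

theorem tri_apply (x y z : K) (f : C(K, ℝ)) : tri x y z f = (f x + f y - f z) / 3 := by
  have : tri x y z f = (1 / 3 : ℝ) * (f x + f y - f z) := rfl
  rw [this]; ring

theorem tri_mem (x y z : K) : tri x y z ∈ unitBall K := by
  intro f
  rw [tri_apply, abs_div]
  have h1 := f.norm_coe_le_norm x
  have h2 := f.norm_coe_le_norm y
  have h3 := f.norm_coe_le_norm z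
  rw [Real.norm_eq_abs] at h1 h2 h3
  have h4 : |f x + f y - f z| ≤ |f x| + |f y| + |f z| :=
    (abs_sub _ _).trans (add_le_add (abs_add_le _ _) le_rfl)
  rw [abs_of_pos (by norm_num : (0 : ℝ) < 3), div_le_iff₀ (by norm_num)]
  linarith

theorem continuous_tri : Continuous fun t : K × K × K => tri t.1 t.2.1 t.2.2 := by
  apply WeakDual.continuous_of_continuous_eval
  intro f
  simp only [tri_apply]
  fun_prop

variable [T2Space K]

theorem exists_urysohn {x y : K} (h : x ≠ y) :
    ∃ f : C(K, ℝ), f x = 1 ∧ f y = 0 ∧ 0 ≤ f ∧ f ≤ 1 := by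
  obtain ⟨f, h0, h1, h2⟩ := exists_continuous_zero_one_of_isClosed
    (isClosed_singleton (x := y)) (isClosed_singleton (x := x))
    (Set.disjoint_singleton.2 h.symm)
  exact ⟨f, h1 rfl, h0 rfl, fun z => (h2 z).1, fun z => (h2 z).2⟩

theorem metrizable_of_ball (h : HasCompensation (unitBall K)) :
    TopologicalSpace.MetrizableSpace K := by
  classical
  obtain ⟨ξ, hξc, hξ⟩ := h
  have hcont : ∀ f, Continuous fun t : K × K × K => ξ (tri t.1 t.2.1 t.2.2) f := fun f =>
    (WeakDual.eval_continuous f).comp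
      (hξc.comp_continuous continuous_tri fun t => tri_mem _ _ _)
  -- basic facts on the compensation
  have hpos : ∀ x y z (f : C(K, ℝ)), 0 ≤ f → 0 ≤ ξ (tri x y z) f ∧
      ξ (tri x y z) f ≤ posEval (tri x y z) f := by
    intro x y z f hf
    rcases hξ _ (tri_mem x y z) with ⟨-, h2, -⟩ | ⟨h1, -⟩
    · exact h2 f hf
    · rw [tri_apply] at h1
      simp at h1
      norm_num at h1
  have hone : ∀ x y z : K, ξ (tri x y z) 1 = 1 / 3 := by
    intro x y z
    rcases hξ _ (tri_mem x y z) with ⟨-, -, h3⟩ | ⟨h1, -⟩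
    · rw [h3, tri_apply]; simp
    · rw [tri_apply] at h1
      simp at h1
      norm_num at h1
  have hle : ∀ x y z (f : C(K, ℝ)), 0 ≤ f → ξ (tri x y z) f ≤ (f x + f y) / 3 := by
    intro x y z f hf
    refine (hpos x y z f hf).2.trans (posEval_le hf ?_)
    intro g hg0 hg
    rw [tri_apply]
    have h1 : (0 : ℝ) ≤ g z := hg0 z
    have h2 : g x ≤ f x := hg x
    have h3 : g y ≤ f y := hg y
    linarith
  have hlex : ∀ x y (f : C(K, ℝ)), 0 ≤ f → ξ (tri x y x) f ≤ f y / 3 := by
    intro x y f hf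
    refine (hpos x y x f hf).2.trans (posEval_le hf ?_)
    intro g hg0 hg
    rw [tri_apply]
    have h3 : g y ≤ f y := hg y
    linarith
  have hley : ∀ x y (f : C(K, ℝ)), 0 ≤ f → ξ (tri x y y) f ≤ f x / 3 := by
    intro x y f hf
    refine (hpos x y y f hf).2.trans (posEval_le hf ?_)
    intro g hg0 hg
    rw [tri_apply]
    have h3 : g x ≤ f x := hg x
    linarith
  have hzero : ∀ x y z (g : C(K, ℝ)), g x = 0 → g y = 0 → ξ (tri x y z) g = 0 := by
    intro x y z g hgx hgy
    have h1 : ξ (tri x y z) |g| ≤ 0 := by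
      have := hle x y z |g| (abs_nonneg g)
      rw [ContinuousMap.abs_apply, ContinuousMap.abs_apply, hgx, hgy] at this
      simpa using this
    have h2 := (hpos x y z (|g| - g) (sub_nonneg.2 (le_abs_self g))).1
    have h3 := (hpos x y z (|g| + g) (by
      rw [← sub_neg_eq_add]; exact sub_nonneg.2 (neg_le_abs g))).1
    rw [map_sub] at h2
    rw [map_add] at h3
    linarith
  have hF : ∀ x y : K, ∃ f : C(K, ℝ), x ≠ y → f x = 1 ∧ f y = 0 ∧ 0 ≤ f ∧ f ≤ 1 := by
    intro x y
    by_cases h : x = y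
    · exact ⟨0, fun h' => absurd h h'⟩
    · obtain ⟨f, hf⟩ := exists_urysohn h
      exact ⟨f, fun _ => hf⟩
  choose F hF using hF
  obtain ⟨P, hP⟩ : ∃ P : K → K → K → ℝ, P = fun x y z => 3 * ξ (tri x y z) (F x y) := ⟨_, rfl⟩
  have hrep : ∀ x y z (f : C(K, ℝ)), x ≠ y →
      3 * ξ (tri x y z) f = P x y z * f x + (1 - P x y z) * f y := by
    intro x y z f hxy
    obtain ⟨h1, h2, -, -⟩ := hF x y hxy
    have h3 := hzero x y z (f - (f x) • F x y - (f y) • (1 - F x y))
      (by simp [h1]) (by simp [h2])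
    rw [map_sub, map_sub, map_smul, map_smul, map_sub, hone] at h3
    simp only [smul_eq_mul] at h3
    rw [hP]
    linear_combination 3 * h3
  apply metrizable_of_separation P
  · intro x y z hxy
    obtain ⟨h1, h2, -, -⟩ := hF x y hxy
    have hev : ∀ᶠ t : K × K × K in 𝓝 (x, y, z), t.1 ≠ t.2.1 ∧
        F x y t.1 - F x y t.2.1 ≠ 0 := by
      refine Eventually.and ?_ ?_
      · exact (isOpen_ne_fun continuous_fst (by fun_prop)).mem_nhds hxy
      · have hc : Continuous fun t : K × K × K => F x y t.1 - F x y t.2.1 := by fun_prop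
        refine (isOpen_ne_fun hc continuous_const).mem_nhds ?_
        change F x y x - F x y y ≠ 0
        rw [h1, h2]; norm_num
    have heq : (fun t : K × K × K => (3 * ξ (tri t.1 t.2.1 t.2.2) (F x y) - F x y t.2.1) /
        (F x y t.1 - F x y t.2.1)) =ᶠ[𝓝 (x, y, z)] fun t => P t.1 t.2.1 t.2.2 := by
      filter_upwards [hev] with t ht
      rw [div_eq_iff ht.2, hrep t.1 t.2.1 t.2.2 (F x y) ht.1]
      ring
    refine ContinuousAt.congr ?_ heq
    refine ContinuousAt.div ?_ ?_ ?_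
    · exact ((continuous_const.mul (hcont (F x y))).sub (by fun_prop)).continuousAt
    · exact (by fun_prop : Continuous fun t : K × K × K =>
        F x y t.1 - F x y t.2.1).continuousAt
    · change F x y x - F x y y ≠ 0
      rw [h1, h2]; norm_num
  · intro x y hxy
    obtain ⟨h1, h2, h3, h4⟩ := hF x y hxy
    have h5 := hlex x y (F x y) h3
    have h6 := (hpos x y x (F x y) h3).1
    rw [h2] at h5
    rw [hP]
    change 3 * ξ (tri x y x) (F x y) = 0
    linarith
  · intro x y hxy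
    obtain ⟨h1, h2, h3, h4⟩ := hF x y hxy
    have h5 := hley x y (1 - F x y) (sub_nonneg.2 h4)
    have h6 := (hpos x y y (1 - F x y) (sub_nonneg.2 h4)).1
    rw [map_sub, hone] at h5 h6
    have h7 : (1 - F x y) x = 0 := by simp [h1]
    rw [h7] at h5
    rw [hP]
    change 3 * ξ (tri x y y) (F x y) = 1
    linarith

end ball

/-! ## Construction for metrizable spaces -/

section construction

variable {K : Type*} [MetricSpace K] [CompactSpace K]

theorem exists_partition (ε : ℝ) (hε : 0 < ε) : ∃ (s : Finset K) (φ : K → C(K, ℝ)),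
    (∀ a x, 0 ≤ φ a x) ∧ (∀ x, ∑ a ∈ s, φ a x = 1) ∧ ∀ a x, φ a x ≠ 0 → dist x a < ε := by
  classical
  obtain ⟨t, -, htf, hcov⟩ := finite_cover_balls_of_compact (isCompact_univ (X := K)) hε
  obtain ⟨ψ, hψ⟩ : ∃ ψ : K → K → ℝ, ψ = fun a x => max (ε - dist x a) 0 := ⟨_, rfl⟩
  have hψ0 : ∀ a x, 0 ≤ ψ a x := fun a x => by rw [hψ]; exact le_max_right _ _
  have hψc : ∀ a, Continuous (ψ a) := fun a => by rw [hψ]; fun_prop
  have hsum : ∀ x, 0 < ∑ a ∈ htf.toFinset, ψ a x := by
    intro x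
    obtain ⟨a, ha, hxa⟩ := mem_iUnion₂.1 (hcov (mem_univ x))
    apply Finset.sum_pos' (fun a _ => hψ0 a x)
    refine ⟨a, htf.mem_toFinset.2 ha, ?_⟩
    rw [hψ]
    have : dist x a < ε := hxa
    exact lt_max_of_lt_left (by linarith)
  refine ⟨htf.toFinset, fun a => ⟨fun x => ψ a x / ∑ b ∈ htf.toFinset, ψ b x,
    (hψc a).div (continuous_finsetSum _ fun b _ => hψc b) fun x => (hsum x).ne'⟩, ?_, ?_, ?_⟩
  · intro a x
    exact div_nonneg (hψ0 a x) (hsum x).le
  · intro x
    change ∑ a ∈ htf.toFinset, ψ a x / ∑ b ∈ htf.toFinset, ψ b x = 1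
    rw [← Finset.sum_div, div_self (hsum x).ne']
  · intro a x h
    by_contra hd
    apply h
    change ψ a x / _ = 0
    have : ψ a x = 0 := by
      rw [hψ]
      exact max_eq_right (by linarith [not_lt.1 hd])
    rw [this, zero_div]

/-- The data of the hierarchical partitions. -/
structure Good (r : ℕ → ℝ) (s : ℕ → Finset K) (φ : ℕ → K → C(K, ℝ)) : Prop where
  nonneg : ∀ k a x, 0 ≤ φ k a x
  sum_eq : ∀ k x, ∑ a ∈ s k, φ k a x = 1
  supp : ∀ k a x, φ k a x ≠ 0 → dist x a < r (k + 1)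
  anti : Antitone r

/-- The mass that is kept in the piece `c h μ`. -/
noncomputable def mass (μ : WeakDual ℝ C(K, ℝ)) (h : C(K, ℝ)) (c : ℝ) : ℝ := max (c * μ h) 0

/-- The scaling factor of the pieces of `c h μ`. -/
noncomputable def θ (s : ℕ → Finset K) (φ : ℕ → K → C(K, ℝ)) (μ : WeakDual ℝ C(K, ℝ)) (k : ℕ)
    (h : C(K, ℝ)) (c : ℝ) : ℝ :=
  mass μ h c / ∑ b ∈ s k, mass μ (h * φ k b) c

/-- The discrete approximations. -/
noncomputable def W (s : ℕ → Finset K) (φ : ℕ → K → C(K, ℝ)) (μ : WeakDual ℝ C(K, ℝ)) :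
    ℕ → ℕ → C(K, ℝ) → ℝ → K → C(K, ℝ) → ℝ
  | 0, _, h, c, x, f => mass μ h c * f x
  | n + 1, k, h, c, _, f => ∑ a ∈ s k, W s φ μ n (k + 1) (h * φ k a) (c * θ s φ μ k h c) a f

variable {r : ℕ → ℝ} {s : ℕ → Finset K} {φ : ℕ → K → C(K, ℝ)}

theorem W_succ (μ : WeakDual ℝ C(K, ℝ)) (n k : ℕ) (h : C(K, ℝ)) (c : ℝ) (x : K) (f : C(K, ℝ)) :
    W s φ μ (n + 1) k h c x f =
      ∑ a ∈ s k, W s φ μ n (k + 1) (h * φ k a) (c * θ s φ μ k h c) a f := rfl

theorem mass_nonneg (μ : WeakDual ℝ C(K, ℝ)) (h : C(K, ℝ)) (c : ℝ) : 0 ≤ mass μ h c :=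
  le_max_right _ _

theorem mul_sum_eq (hG : Good r s φ) (k : ℕ) (h : C(K, ℝ)) : ∑ b ∈ s k, h * φ k b = h := by
  ext x
  rw [ContinuousMap.sum_apply]
  simp only [ContinuousMap.mul_apply]
  rw [← Finset.mul_sum, hG.sum_eq, mul_one]

theorem mass_le_sum (hG : Good r s φ) (μ : WeakDual ℝ C(K, ℝ)) (k : ℕ) (h : C(K, ℝ)) (c : ℝ) :
    mass μ h c ≤ ∑ b ∈ s k, mass μ (h * φ k b) c := by
  apply max_le
  · have h1 : c * μ h = ∑ b ∈ s k, c * μ (h * φ k b) := by
      conv_lhs => rw [← mul_sum_eq hG k h]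
      rw [map_sum, Finset.mul_sum]
    rw [h1]
    exact Finset.sum_le_sum fun b _ => le_max_left _ _
  · exact Finset.sum_nonneg fun b _ => mass_nonneg _ _ _

theorem θ_nonneg (μ : WeakDual ℝ C(K, ℝ)) (k : ℕ) (h : C(K, ℝ)) (c : ℝ) :
    0 ≤ θ s φ μ k h c :=
  div_nonneg (mass_nonneg _ _ _) (Finset.sum_nonneg fun b _ => mass_nonneg _ _ _)

theorem θ_le_one (hG : Good r s φ) (μ : WeakDual ℝ C(K, ℝ)) (k : ℕ) (h : C(K, ℝ)) (c : ℝ) :
    θ s φ μ k h c ≤ 1 :=
  div_le_one_of_le₀ (mass_le_sum hG μ k h c) (Finset.sum_nonneg fun b _ => mass_nonneg _ _ _)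

theorem mass_mul (μ : WeakDual ℝ C(K, ℝ)) (h : C(K, ℝ)) (c : ℝ) {t : ℝ} (ht : 0 ≤ t) :
    mass μ h (c * t) = t * mass μ h c := by
  unfold mass
  rw [mul_max_of_nonneg _ _ ht, mul_zero]
  congr 1
  ring

theorem sum_mass (hG : Good r s φ) (μ : WeakDual ℝ C(K, ℝ)) (k : ℕ) (h : C(K, ℝ)) (c : ℝ) :
    ∑ a ∈ s k, mass μ (h * φ k a) (c * θ s φ μ k h c) = mass μ h c := by
  simp only [mass_mul μ _ c (θ_nonneg μ k h c)]
  rw [← Finset.mul_sum]
  by_cases h0 : ∑ b ∈ s k, mass μ (h * φ k b) c = 0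
  · rw [h0, mul_zero]
    have h1 := mass_le_sum hG μ k h c
    rw [h0] at h1
    exact (le_antisymm h1 (mass_nonneg _ _ _)).symm
  · unfold θ
    rw [div_mul_cancel₀ _ h0]

theorem W_nonneg (μ : WeakDual ℝ C(K, ℝ)) {f : C(K, ℝ)} (hf : 0 ≤ f) (n : ℕ) :
    ∀ (k : ℕ) (h : C(K, ℝ)) (c : ℝ) (x : K), 0 ≤ W s φ μ n k h c x f := by
  induction n with
  | zero => intro k h c x; exact mul_nonneg (mass_nonneg _ _ _) (hf x)
  | succ n ih => intro k h c x; rw [W_succ]; exact Finset.sum_nonneg fun a _ => ih _ _ _ _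

theorem W_add (μ : WeakDual ℝ C(K, ℝ)) (f g : C(K, ℝ)) (n : ℕ) :
    ∀ (k : ℕ) (h : C(K, ℝ)) (c : ℝ) (x : K),
      W s φ μ n k h c x (f + g) = W s φ μ n k h c x f + W s φ μ n k h c x g := by
  induction n with
  | zero => intro k h c x; simp only [W, ContinuousMap.add_apply]; ring
  | succ n ih =>
    intro k h c x
    rw [W_succ, W_succ, W_succ, ← Finset.sum_add_distrib]
    exact Finset.sum_congr rfl fun a _ => ih _ _ _ _

theorem W_smul (μ : WeakDual ℝ C(K, ℝ)) (t : ℝ) (f : C(K, ℝ)) (n : ℕ) :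
    ∀ (k : ℕ) (h : C(K, ℝ)) (c : ℝ) (x : K),
      W s φ μ n k h c x (t • f) = t * W s φ μ n k h c x f := by
  induction n with
  | zero => intro k h c x; simp only [W, ContinuousMap.smul_apply, smul_eq_mul]; ring
  | succ n ih =>
    intro k h c x
    rw [W_succ, W_succ, Finset.mul_sum]
    exact Finset.sum_congr rfl fun a _ => ih _ _ _ _

theorem W_one (hG : Good r s φ) (μ : WeakDual ℝ C(K, ℝ)) (n : ℕ) :
    ∀ (k : ℕ) (h : C(K, ℝ)) (c : ℝ) (x : K), W s φ μ n k h c x 1 = mass μ h c := by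
  induction n with
  | zero => intro k h c x; simp [W]
  | succ n ih =>
    intro k h c x
    rw [W_succ, ← sum_mass hG μ k h c]
    exact Finset.sum_congr rfl fun a _ => ih _ _ _ _

theorem abs_W_le (hG : Good r s φ) (μ : WeakDual ℝ C(K, ℝ)) (f : C(K, ℝ)) (n k : ℕ)
    (h : C(K, ℝ)) (c : ℝ) (x : K) : |W s φ μ n k h c x f| ≤ mass μ h c * ‖f‖ := by
  have key : ∀ g : C(K, ℝ), g ≤ ‖f‖ • (1 : C(K, ℝ)) →
      W s φ μ n k h c x g ≤ mass μ h c * ‖f‖ := by
    intro g hg
    have h1 := W_nonneg (s := s) (φ := φ) μ (sub_nonneg.2 hg) n k h c x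
    rw [sub_eq_add_neg, W_add, W_smul, W_one hG, ← neg_one_smul ℝ g, W_smul] at h1
    linarith
  rw [abs_le]
  constructor
  · have h1 := key (-f) (fun y => by
      have := f.norm_coe_le_norm y
      rw [Real.norm_eq_abs, abs_le] at this
      change -(f y) ≤ ‖f‖ * 1
      linarith [this.1])
    rw [← neg_one_smul ℝ f, W_smul] at h1
    linarith
  · exact key f (fun y => by
      have := f.norm_coe_le_norm y
      rw [Real.norm_eq_abs, abs_le] at this
      change f y ≤ ‖f‖ * 1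
      linarith [this.2])

/-- Closeness to a value. -/
theorem W_close (hG : Good r s φ) (μ : WeakDual ℝ C(K, ℝ)) (f : C(K, ℝ)) {v B η : ℝ} (n : ℕ) :
    ∀ (k : ℕ) (h : C(K, ℝ)) (c : ℝ) (x : K),
      (∀ z w, dist z w < r k → |f z - f w| ≤ η) →
      (∀ z, h z ≠ 0 → dist z x < r k) →
      (∀ z, h z ≠ 0 → |f z - v| ≤ B) →
      |W s φ μ n k h c x f - mass μ h c * v| ≤ mass μ h c * (B + η) := by
  induction n with
  | zero =>
    intro k h c x hη hx hB
    have h1 : W s φ μ 0 k h c x f - mass μ h c * v = mass μ h c * (f x - v) := by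
      simp only [W]; ring
    rw [h1, abs_mul, abs_of_nonneg (mass_nonneg _ _ _)]
    by_cases hh : h = 0
    · have : mass μ h c = 0 := by unfold mass; rw [hh, map_zero]; simp
      rw [this]; simp
    · obtain ⟨z, hz⟩ : ∃ z, h z ≠ 0 := by
        by_contra hcon
        push Not at hcon
        exact hh (ContinuousMap.ext hcon)
      apply mul_le_mul_of_nonneg_left _ (mass_nonneg _ _ _)
      have h2 := hη z x (hx z hz)
      have h3 := hB z hz
      rw [abs_le] at h2 h3 ⊢
      constructor <;> linarith [h2.1, h2.2, h3.1, h3.2]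
  | succ n ih =>
    intro k h c x hη hx hB
    rw [W_succ, ← sum_mass hG μ k h c, Finset.sum_mul, Finset.sum_mul, ← Finset.sum_sub_distrib]
    refine (Finset.abs_sum_le_sum_abs _ _).trans (Finset.sum_le_sum fun a _ => ?_)
    apply ih
    · intro z w hzw
      exact hη z w (hzw.trans_le (hG.anti (Nat.le_succ k)))
    · intro z hz
      exact hG.supp k a z (right_ne_zero_of_mul hz)
    · intro z hz
      exact hB z (left_ne_zero_of_mul hz)

theorem W_cauchy (hG : Good r s φ) (μ : WeakDual ℝ C(K, ℝ)) (f : C(K, ℝ)) {η : ℝ} (m n : ℕ) :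
    ∀ (k : ℕ) (h : C(K, ℝ)) (c : ℝ) (x : K),
      (∀ z w, dist z w < r (k + n) → |f z - f w| ≤ η) →
      (∀ z, h z ≠ 0 → dist z x < r k) →
      |W s φ μ (n + m) k h c x f - W s φ μ n k h c x f| ≤ mass μ h c * (η + η) := by
  induction n with
  | zero =>
    intro k h c x hη hx
    rw [Nat.zero_add]
    exact W_close hG μ f m k h c x hη hx (fun z hz => hη z x (hx z hz))
  | succ n ih =>
    intro k h c x hη hx
    rw [Nat.succ_add, W_succ, W_succ, ← Finset.sum_sub_distrib, ← sum_mass hG μ k h c,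
      Finset.sum_mul]
    refine (Finset.abs_sum_le_sum_abs _ _).trans (Finset.sum_le_sum fun a _ => ?_)
    apply ih
    · intro z w hzw
      refine hη z w ?_
      have : k + (n + 1) = k + 1 + n := by ring
      rwa [this]
    · intro z hz
      exact hG.supp k a z (right_ne_zero_of_mul hz)

theorem W_upper (hG : Good r s φ) (μ : WeakDual ℝ C(K, ℝ)) {f : C(K, ℝ)} (hf : 0 ≤ f) {ε : ℝ}
    (hε : 0 ≤ ε) (n : ℕ) :
    ∀ (k : ℕ) (h : C(K, ℝ)) (c : ℝ) (x : K), 0 ≤ c → 0 ≤ h →
      (∀ z w, dist z w < r (k + n) → |f z - f w| ≤ ε) →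
      (∀ z, h z ≠ 0 → dist z x < r k) →
      W s φ μ n k h c x f ≤ c * posEval μ (h * (f + ContinuousMap.const K ε)) := by
  have hfε : 0 ≤ f + ContinuousMap.const K ε := fun z => by
    have : (0 : ℝ) ≤ f z := hf z
    change (0 : ℝ) ≤ f z + ε
    linarith
  induction n with
  | zero =>
    intro k h c x hc hh hη hx
    have hfx : (0 : ℝ) ≤ f x := hf x
    have h1 : W s φ μ 0 k h c x f = c * max (μ (f x • h)) 0 := by
      simp only [W, mass]
      rw [map_smul, smul_eq_mul, mul_max_of_nonneg _ _ hc, max_mul_of_nonneg _ _ hfx]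
      congr 1 <;> ring
    rw [h1]
    apply mul_le_mul_of_nonneg_left _ hc
    apply max_le
    · apply le_posEval
      · intro z
        exact mul_nonneg hfx (hh z)
      · intro z
        change f x * h z ≤ h z * (f z + ε)
        by_cases hz : h z = 0
        · rw [hz]; simp
        · have h2 := hη z x (hx z hz)
          rw [abs_le] at h2
          have h3 : (0 : ℝ) ≤ h z := hh z
          nlinarith [h2.1, h2.2]
    · exact posEval_nonneg (mul_nonneg hh hfε)
  | succ n ih =>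
    intro k h c x hc hh hη hx
    rw [W_succ]
    have hθ0 := θ_nonneg (s := s) (φ := φ) μ k h c
    have hθ1 := θ_le_one hG μ k h c
    have hpos : ∀ a, 0 ≤ h * φ k a := fun a z => mul_nonneg (hh z) (hG.nonneg k a z)
    have h1 : ∀ a ∈ s k, W s φ μ n (k + 1) (h * φ k a) (c * θ s φ μ k h c) a f ≤
        c * posEval μ (h * φ k a * (f + ContinuousMap.const K ε)) := by
      intro a _
      refine (ih (k + 1) (h * φ k a) (c * θ s φ μ k h c) a (mul_nonneg hc hθ0) (hpos a) ?_
        ?_).trans ?_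
      · intro z w hzw
        refine hη z w ?_
        have : k + (n + 1) = k + 1 + n := by ring
        rwa [this]
      · intro z hz
        exact hG.supp k a z (right_ne_zero_of_mul hz)
      · apply mul_le_mul_of_nonneg_right _ (posEval_nonneg (mul_nonneg (hpos a) hfε))
        exact mul_le_of_le_one_right hc hθ1
    refine (Finset.sum_le_sum h1).trans ?_
    rw [← Finset.mul_sum]
    apply mul_le_mul_of_nonneg_left _ hc
    refine (posEval_sum _ _ fun a => mul_nonneg (hpos a) hfε).trans (le_of_eq ?_)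
    rw [← Finset.sum_mul, mul_sum_eq hG]

theorem W_continuous (hG : Good r s φ) (f : C(K, ℝ)) (n : ℕ) :
    ∀ (k : ℕ) (h : C(K, ℝ)) (c : WeakDual ℝ C(K, ℝ) → ℝ) (x : K),
      (Continuous fun μ => mass μ h (c μ)) →
      (∀ μ, mass μ h (c μ) ≠ 0 → ContinuousAt c μ) →
      Continuous fun μ => W s φ μ n k h (c μ) x f := by
  induction n with
  | zero =>
    intro k h c x hm hc
    exact hm.mul continuous_const
  | succ n ih =>
    intro k h c x hm hc
    simp only [W_succ]
    apply continuous_finsetSum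
    intro a ha
    have hev : ∀ g : C(K, ℝ), Continuous fun μ : WeakDual ℝ C(K, ℝ) => μ g := fun g =>
      WeakDual.eval_continuous g
    have hmass : ∀ μ0, mass μ0 h (c μ0) ≠ 0 → ∀ g : C(K, ℝ),
        ContinuousAt (fun μ => mass μ g (c μ)) μ0 := by
      intro μ0 h0 g
      exact (((hc μ0 h0).mul (hev g).continuousAt)).max continuousAt_const
    have hθc : ∀ μ0, mass μ0 h (c μ0) ≠ 0 →
        ContinuousAt (fun μ => c μ * θ s φ μ k h (c μ)) μ0 := by
      intro μ0 h0
      refine (hc μ0 h0).mul (ContinuousAt.div (hmass μ0 h0 h) ?_ ?_)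
      · exact tendsto_finsetSum _ fun b _ => hmass μ0 h0 (h * φ k b)
      · have h1 := mass_le_sum hG μ0 k h (c μ0)
        have h2 := mass_nonneg μ0 h (c μ0)
        have h3 : 0 < mass μ0 h (c μ0) := lt_of_le_of_ne h2 (Ne.symm h0)
        exact (h3.trans_le h1).ne'
    have hle : ∀ μ, mass μ (h * φ k a) (c μ * θ s φ μ k h (c μ)) ≤ mass μ h (c μ) := by
      intro μ
      have h1 := sum_mass hG μ k h (c μ)
      rw [← h1]
      exact Finset.single_le_sum (f := fun b => mass μ (h * φ k b) (c μ * θ s φ μ k h (c μ)))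
        (fun b _ => mass_nonneg _ _ _) ha
    apply ih (k + 1) (h * φ k a) (fun μ => c μ * θ s φ μ k h (c μ)) a
    · rw [continuous_iff_continuousAt]
      intro μ0
      by_cases h0 : mass μ0 h (c μ0) = 0
      · have h1 : mass μ0 (h * φ k a) (c μ0 * θ s φ μ0 k h (c μ0)) = 0 :=
          le_antisymm ((hle μ0).trans h0.le) (mass_nonneg _ _ _)
        change Tendsto (fun μ => mass μ (h * φ k a) (c μ * θ s φ μ k h (c μ))) (𝓝 μ0)
          (𝓝 (mass μ0 (h * φ k a) (c μ0 * θ s φ μ0 k h (c μ0))))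
        rw [h1]
        have h2 : Tendsto (fun μ => mass μ h (c μ)) (𝓝 μ0) (𝓝 0) := by
          have := hm.tendsto μ0
          rwa [h0] at this
        exact squeeze_zero (fun μ => mass_nonneg _ _ _) hle h2
      · exact (((hθc μ0 h0).mul (hev (h * φ k a)).continuousAt)).max continuousAt_const
    · intro μ0 h1
      apply hθc μ0
      intro h0
      exact h1 (le_antisymm ((hle μ0).trans h0.le) (mass_nonneg _ _ _))

theorem hasCompensation_univ_aux [Nonempty K] :
    HasCompensation (univ : Set (WeakDual ℝ C(K, ℝ))) := by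
  classical
  obtain ⟨x0⟩ := ‹Nonempty K›
  -- scales
  obtain ⟨R, hR⟩ : ∃ R : ℝ, ∀ x y : K, dist x y < R := by
    obtain ⟨C, hC⟩ := (Metric.isBounded_iff (s := (univ : Set K))).1
      (isCompact_univ.isBounded)
    exact ⟨C + 1, fun x y => (hC (mem_univ x) (mem_univ y)).trans_lt (lt_add_one C)⟩
  have hR0 : 0 < R := dist_nonneg.trans_lt (hR x0 x0)
  obtain ⟨r, hr⟩ : ∃ r : ℕ → ℝ, r = fun k => R * (1 / 2) ^ k := ⟨_, rfl⟩
  have hr0 : ∀ k, 0 < r k := fun k => by rw [hr]; positivity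
  have hrl : Tendsto r atTop (𝓝 0) := by
    rw [hr]
    have := (tendsto_pow_atTop_nhds_zero_of_lt_one (r := (1 / 2 : ℝ)) (by norm_num)
      (by norm_num)).const_mul R
    simpa using this
  have hra : Antitone r := by
    apply antitone_nat_of_succ_le
    intro k
    rw [hr]
    change R * (1 / 2) ^ (k + 1) ≤ R * (1 / 2) ^ k
    rw [pow_succ]
    have : 0 < R * (1 / 2) ^ k := by positivity
    nlinarith
  have hpart := fun k => exists_partition (K := K) (r (k + 1)) (hr0 (k + 1))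
  choose s φ h1 h2 h3 using hpart
  have hG : Good r s φ := ⟨h1, h2, h3, hra⟩
  obtain ⟨V, hV⟩ : ∃ V : ℕ → WeakDual ℝ C(K, ℝ) → C(K, ℝ) → ℝ,
    V = fun n μ f => W s φ μ n 0 1 1 x0 f := ⟨_, rfl⟩
  have hroot : ∀ z : K, (1 : C(K, ℝ)) z ≠ 0 → dist z x0 < r 0 := by
    intro z _
    rw [hr]
    simpa using hR z x0
  -- modulus of continuity
  have hmod : ∀ (f : C(K, ℝ)) (ε : ℝ), 0 < ε → ∃ N, ∀ n ≥ N, ∀ z w, dist z w < r (0 + n) →
      |f z - f w| ≤ ε := by
    intro f ε hε
    have huc := CompactSpace.uniformContinuous_of_continuous f.continuous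
    obtain ⟨δ, hδ, hδ'⟩ := Metric.uniformContinuous_iff.1 huc ε hε
    obtain ⟨N, hN⟩ := (eventually_atTop.1 (hrl.eventually (gt_mem_nhds hδ)))
    refine ⟨N, fun n hn z w hzw => ?_⟩
    rw [Nat.zero_add] at hzw
    have := hδ' (hzw.trans (hN n hn))
    rw [Real.dist_eq] at this
    exact this.le
  have hcau : ∀ (f : C(K, ℝ)) (ε : ℝ), 0 < ε → ∃ N, ∀ μ, ∀ m,
      |V (N + m) μ f - V N μ f| ≤ mass μ 1 1 * (ε + ε) := by
    intro f ε hε
    obtain ⟨N, hN⟩ := hmod f ε hε
    refine ⟨N, fun μ m => ?_⟩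
    rw [hV]
    exact W_cauchy hG μ f m N 0 1 1 x0 (hN N le_rfl) hroot
  -- the limit
  have hlim : ∀ μ f, ∃ L, Tendsto (fun n => V n μ f) atTop (𝓝 L) := by
    intro μ f
    apply cauchySeq_tendsto_of_complete
    rw [Metric.cauchySeq_iff']
    intro ε hε
    have hm := mass_nonneg μ 1 1
    obtain ⟨N, hN⟩ := hcau f (ε / (4 * (mass μ 1 1 + 1))) (by positivity)
    refine ⟨N, fun n hn => ?_⟩
    obtain ⟨m, rfl⟩ := Nat.exists_eq_add_of_le hn
    rw [Real.dist_eq]
    refine (hN μ m).trans_lt ?_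
    have h4 : mass μ 1 1 * (ε / (4 * (mass μ 1 1 + 1)) + ε / (4 * (mass μ 1 1 + 1))) =
        (mass μ 1 1 / (mass μ 1 1 + 1)) * (ε / 2) := by
      field_simp; ring
    rw [h4]
    have h5 : mass μ 1 1 / (mass μ 1 1 + 1) ≤ 1 := by
      rw [div_le_one (by linarith)]; linarith
    nlinarith
  choose L hL using hlim
  have hLadd : ∀ μ f g, L μ (f + g) = L μ f + L μ g := by
    intro μ f g
    refine tendsto_nhds_unique (hL μ (f + g)) ?_
    have := (hL μ f).add (hL μ g)
    refine this.congr fun n => ?_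
    rw [hV]
    exact (W_add μ f g n 0 1 1 x0).symm
  have hLsmul : ∀ μ (t : ℝ) f, L μ (t • f) = t * L μ f := by
    intro μ t f
    refine tendsto_nhds_unique (hL μ (t • f)) ?_
    have := (hL μ f).const_mul t
    refine this.congr fun n => ?_
    rw [hV]
    exact (W_smul μ t f n 0 1 1 x0).symm
  have hLb : ∀ μ f, |L μ f| ≤ mass μ 1 1 * ‖f‖ := by
    intro μ f
    refine le_of_tendsto (hL μ f).abs (Eventually.of_forall fun n => ?_)
    rw [hV]
    exact abs_W_le hG μ f n 0 1 1 x0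
  obtain ⟨ξ, hξ⟩ : ∃ ξ : WeakDual ℝ C(K, ℝ) → WeakDual ℝ C(K, ℝ), ∀ μ f, ξ μ f = L μ f := by
    refine ⟨fun μ => StrongDual.toWeakDual (LinearMap.mkContinuous
      { toFun := L μ, map_add' := hLadd μ, map_smul' := fun t f => hLsmul μ t f }
      (mass μ 1 1) (fun f => ?_)), fun μ f => rfl⟩
    rw [Real.norm_eq_abs]
    exact hLb μ f
  refine ⟨ξ, ?_, ?_⟩
  · -- continuity
    rw [continuousOn_univ]
    apply WeakDual.continuous_of_continuous_eval
    intro f
    simp only [hξ]
    have hmc : Continuous fun μ : WeakDual ℝ C(K, ℝ) => mass μ 1 1 := by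
      unfold mass
      exact (continuous_const.mul (WeakDual.eval_continuous 1)).max continuous_const
    have hVc : ∀ n, Continuous fun μ => V n μ f := by
      intro n
      rw [hV]
      exact W_continuous hG f n 0 1 (fun _ => 1) x0 hmc (fun μ _ => continuousAt_const)
    rw [continuous_iff_continuousAt]
    intro μ0
    rw [ContinuousAt, Metric.tendsto_nhds]
    intro ε hε
    have hm := mass_nonneg μ0 1 1
    obtain ⟨N, hN⟩ := hcau f (ε / (8 * (mass μ0 1 1 + 1))) (by positivity)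
    have hclose : ∀ μ, mass μ 1 1 < mass μ0 1 1 + 1 → |L μ f - V N μ f| ≤ ε / 4 := by
      intro μ hμ
      have h4 : |L μ f - V N μ f| ≤ mass μ 1 1 *
          (ε / (8 * (mass μ0 1 1 + 1)) + ε / (8 * (mass μ0 1 1 + 1))) := by
        have h5 : Tendsto (fun m => |V (N + m) μ f - V N μ f|) atTop (𝓝 |L μ f - V N μ f|) := by
          have h6 : Tendsto (fun m => V (N + m) μ f) atTop (𝓝 (L μ f)) := by
            have := (tendsto_add_atTop_iff_nat (f := fun n => V n μ f) N).2 (hL μ f)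
            refine this.congr fun m => ?_
            rw [Nat.add_comm]
          exact (h6.sub_const _).abs
        exact le_of_tendsto h5 (Eventually.of_forall fun m => hN μ m)
      refine h4.trans ?_
      have h5 : mass μ 1 1 * (ε / (8 * (mass μ0 1 1 + 1)) + ε / (8 * (mass μ0 1 1 + 1))) =
          (mass μ 1 1 / (mass μ0 1 1 + 1)) * (ε / 4) := by
        field_simp; ring
      rw [h5]
      have h6 : mass μ 1 1 / (mass μ0 1 1 + 1) ≤ 1 := by
        rw [div_le_one (by linarith)]; linarith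
      nlinarith
    have hev1 : ∀ᶠ μ in 𝓝 μ0, mass μ 1 1 < mass μ0 1 1 + 1 :=
      (hmc.tendsto μ0).eventually (gt_mem_nhds (by linarith))
    have hev2 : ∀ᶠ μ in 𝓝 μ0, dist (V N μ f) (V N μ0 f) < ε / 4 :=
      (Metric.tendsto_nhds.1 ((hVc N).tendsto μ0)) (ε / 4) (by linarith)
    filter_upwards [hev1, hev2] with μ h4 h5
    have h6 := hclose μ h4
    have h7 := hclose μ0 (by linarith)
    rw [Real.dist_eq] at h5 ⊢
    rw [abs_le] at h6 h7
    rw [abs_lt] at h5 ⊢
    constructor <;> linarith [h5.1, h5.2, h6.1, h6.2, h7.1, h7.2]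
  · -- compensation
    intro μ _
    by_cases hμ : 0 < μ 1
    · refine Or.inl ⟨hμ, fun f hf => ⟨?_, ?_⟩, ?_⟩
      · rw [hξ]
        refine ge_of_tendsto (hL μ f) (Eventually.of_forall fun n => ?_)
        rw [hV]
        exact W_nonneg μ hf n 0 1 1 x0
      · rw [hξ]
        obtain ⟨C, hC, hC'⟩ := abs_apply_le μ
        apply le_of_forall_pos_le_add
        intro ε hε
        obtain ⟨N, hN⟩ := hmod f (ε / (C + 1)) (by positivity)
        refine le_of_tendsto (hL μ f) (eventually_atTop.2 ⟨N, fun n hn => ?_⟩)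
        have h4 := W_upper hG μ hf (ε := ε / (C + 1)) (by positivity) n 0 1 1 x0 zero_le_one
          (fun z => zero_le_one) (hN n hn) hroot
        rw [one_mul, one_mul] at h4
        rw [hV]
        refine h4.trans ((posEval_add_const hC hC' hf (by positivity)).trans ?_)
        have h5 : C * (ε / (C + 1)) ≤ ε := by
          rw [← mul_div_assoc, div_le_iff₀ (by linarith)]
          nlinarith
        linarith
      · rw [hξ]
        refine tendsto_nhds_unique (hL μ 1) ?_
        have h4 : ∀ n, V n μ 1 = μ 1 := by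
          intro n
          rw [hV]
          change W s φ μ n 0 1 1 x0 1 = μ 1
          rw [W_one hG]
          unfold mass
          rw [one_mul, max_eq_left hμ.le]
        simp only [h4]
        exact tendsto_const_nhds
    · refine Or.inr ⟨not_lt.1 hμ, ?_⟩
      have h4 : mass μ 1 1 = 0 := by
        unfold mass
        rw [one_mul, max_eq_right (not_lt.1 hμ)]
      apply DFunLike.ext
      intro f
      rw [hξ]
      have h5 := hLb μ f
      rw [h4, zero_mul] at h5
      exact abs_eq_zero.1 (le_antisymm h5 (abs_nonneg _))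

end construction

/-- **Answer to Q1: yes.**  For a compact Hausdorff space `K` the following are equivalent:
`K` is metrizable; `K` admits a compensation function; `K` admits a compensation function on the
unit ball of `M(K) = C(K)*`. -/
theorem result (K : Type*) [TopologicalSpace K] [CompactSpace K] [T2Space K] :
    List.TFAE [HasCompensation (unitBall K), HasCompensation (univ : Set (WeakDual ℝ C(K, ℝ))),
      TopologicalSpace.MetrizableSpace K] := by
  tfae_have 1 → 3 := metrizable_of_ball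
  tfae_have 3 → 2 := by
    intro h
    letI := TopologicalSpace.metrizableSpaceMetric K
    rcases isEmpty_or_nonempty K with hK | hK
    · refine ⟨fun _ => 0, continuousOn_const, fun μ _ => Or.inr ⟨?_, rfl⟩⟩
      have : (1 : C(K, ℝ)) = 0 := by
        ext x
        exact hK.elim x
      rw [this, map_zero]
    · exact hasCompensation_univ_aux
  tfae_have 2 → 1 := by
    rintro ⟨ξ, h1, h2⟩
    exact ⟨ξ, h1.mono (subset_univ _), fun μ _ => h2 μ (mem_univ _)⟩
  tfae_finish

end Pool.Agent.Results.MP_f97503_an.UnitBallSuffices
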